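import Mathlib
import Pool.Agent.H151.ExtMain

/-!
Topological properties of the double arrow space, of its product with a convergent sequence and of
the quotient used in the file ExtMain.
-/

set_option autoImplicit false

open Set Topology Filter

namespace Pool.Agent.Y644.Arr

open Pool.Agent.H151 Pool.Agent.H151.Ext

/-- the nowhere true cut -/
def bo : DA := ⟨fun _ => false, antitone_const⟩

/-- the everywhere true cut -/
def tp : DA := ⟨fun _ => true, antitone_const⟩

theorem le_of_true_false (L : DA) {x y : ℝ} (hx : L.1 x = true) (hy : L.1 y = false) : x < y := by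
  by_contra h
  have := L.2 (not_lt.1 h)
  rw [hx, hy] at this
  exact absurd this (by simp)

theorem true_of_le (L : DA) {x y : ℝ} (hxy : x ≤ y) (hy : L.1 y = true) : L.1 x = true := by
  have := L.2 hxy
  rw [hy] at this
  exact top_le_iff.1 this

theorem false_of_le (L : DA) {x y : ℝ} (hxy : x ≤ y) (hx : L.1 x = false) : L.1 y = false := by
  by_contra h
  have h' : L.1 y = true := by simpa using h
  rw [true_of_le L hxy h'] at hx
  exact absurd hx (by simp)

/-- every cut is trivial or given by a real number -/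
theorem classify (L : DA) : L = bo ∨ L = tp ∨ ∃ y, L = Lo y ∨ L = Hi y := by
  by_cases h1 : ∃ x, L.1 x = true
  · by_cases h2 : ∃ x, L.1 x = false
    · right; right
      obtain ⟨x1, hx1⟩ := h1
      obtain ⟨x2, hx2⟩ := h2
      set S : Set ℝ := {x | L.1 x = true} with hS
      have hne : S.Nonempty := ⟨x1, hx1⟩
      have hbdd : BddAbove S := ⟨x2, fun x hx => (le_of_true_false L hx hx2).le⟩
      refine ⟨sSup S, ?_⟩
      have hlt : ∀ x, x < sSup S → L.1 x = true := by
        intro x hx
        obtain ⟨x', hx', h⟩ := exists_lt_of_lt_csSup hne hx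
        exact true_of_le L h.le hx'
      have hgt : ∀ x, sSup S < x → L.1 x = false := by
        intro x hx
        by_contra h
        have h' : L.1 x = true := by simpa using h
        exact absurd (le_csSup hbdd h') (not_le.2 hx)
      cases hs : L.1 (sSup S)
      · left
        apply Subtype.ext
        funext x
        show L.1 x = decide (x < sSup S)
        rcases lt_trichotomy x (sSup S) with h | h | h
        · rw [hlt x h]; simp [h]
        · rw [h, hs]; simp
        · rw [hgt x h]; simp [h.le]
      · right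
        apply Subtype.ext
        funext x
        show L.1 x = decide (x ≤ sSup S)
        rcases lt_trichotomy x (sSup S) with h | h | h
        · rw [hlt x h]; simp [h.le]
        · rw [h, hs]; simp
        · rw [hgt x h]; simp [h]
    · right; left
      push Not at h2
      apply Subtype.ext
      funext x
      show L.1 x = true
      simpa using h2 x
  · left
    push Not at h1
    apply Subtype.ext
    funext x
    show L.1 x = false
    simpa using h1 x

theorem isOpen_eval (x : ℝ) (b : Bool) : IsOpen {L : DA | L.1 x = b} :=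
  (isOpen_discrete {b}).preimage (DA.cont_eval x)

/-- neighbourhoods of a cut -/
theorem nhds_eq (L : DA) : 𝓝 L = ⨅ x : ℝ, 𝓟 {M : DA | M.1 x = L.1 x} := by
  rw [nhds_subtype_eq_comap, nhds_pi, Filter.pi, Filter.comap_iInf]
  refine iInf_congr fun x => ?_
  rw [nhds_discrete, comap_comap, comap_pure]
  rfl

/-- the coordinates needed for a neighbourhood base -/
def special (L : DA) : Set ℝ :=
  {x | (L.1 x = true ∧ ∀ q : ℚ, x < q → L.1 q = false) ∨
    (L.1 x = false ∧ ∀ q : ℚ, (q : ℝ) < x → L.1 q = true)}

theorem special_countable (L : DA) : (special L).Countable := by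
  apply Set.Subsingleton.countable
  have key : ∀ x ∈ special L, ∀ y ∈ special L, ¬ x < y := by
    intro x hx y hy hxy
    obtain ⟨q, hq1, hq2⟩ := exists_rat_btwn hxy
    have hLq : L.1 q = false := by
      rcases hx with ⟨_, h⟩ | ⟨h, _⟩
      · exact h q hq1
      · exact false_of_le L hq1.le h
    have hLq' : L.1 q = true := by
      rcases hy with ⟨h, _⟩ | ⟨_, h⟩
      · exact true_of_le L hq2.le h
      · exact h q hq2
    rw [hLq] at hLq'
    exact absurd hLq' (by simp)
  intro x hx y hy
  exact le_antisymm (not_lt.1 (key y hy x hx)) (not_lt.1 (key x hx y hy))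

theorem nhds_eq' (L : DA) :
    𝓝 L = ⨅ x ∈ range ((↑) : ℚ → ℝ) ∪ special L, 𝓟 {M : DA | M.1 x = L.1 x} := by
  rw [nhds_eq]
  apply le_antisymm
  · exact le_iInf₂ fun x _ => iInf_le _ x
  · refine le_iInf fun x => ?_
    by_cases hx : x ∈ special L
    · exact iInf₂_le x (Or.inr hx)
    · simp only [special, mem_ofPred_eq, not_or, not_and, not_forall] at hx
      cases hLx : L.1 x
      · obtain ⟨q, hq, hLq⟩ := hx.2 hLx
        have hLq' : L.1 q = false := by simpa using hLq
        refine (iInf₂_le (q : ℝ) (Or.inl ⟨q, rfl⟩)).trans ?_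
        rw [principal_mono]
        intro M hM
        have hM' : M.1 q = L.1 q := hM
        rw [hLq'] at hM'
        exact false_of_le M hq.le hM'
      · obtain ⟨q, hq, hLq⟩ := hx.1 hLx
        have hLq' : L.1 q = true := by simpa using hLq
        refine (iInf₂_le (q : ℝ) (Or.inl ⟨q, rfl⟩)).trans ?_
        rw [principal_mono]
        intro M hM
        have hM' : M.1 q = L.1 q := hM
        rw [hLq'] at hM'
        exact true_of_le M hq.le hM'

instance firstCountable_DA : FirstCountableTopology DA := by
  refine ⟨fun L => ?_⟩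
  rw [nhds_eq']
  have hc : (range ((↑) : ℚ → ℝ) ∪ special L).Countable :=
    (countable_range _).union (special_countable L)
  have : Countable ↥(range ((↑) : ℚ → ℝ) ∪ special L) := hc.to_subtype
  rw [iInf_subtype']
  exact Filter.iInf.isCountablyGenerated _

/-- basic neighbourhoods depend on finitely many coordinates -/
theorem exists_finset {U : Set DA} {L : DA} (hU : U ∈ 𝓝 L) :
    ∃ I : Finset ℝ, ∀ M : DA, (∀ x ∈ I, M.1 x = L.1 x) → M ∈ U := by
  rw [nhds_eq, Filter.mem_iInf'] at hU
  obtain ⟨I, hI, V, hV, hV1, hV2, hV3⟩ := hU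
  refine ⟨hI.toFinset, fun M hM => ?_⟩
  rw [hV2]
  simp only [mem_iInter]
  intro x hx
  exact mem_principal.1 (hV x) (hM x (by simpa using hx))

theorem exists_left (I : Finset ℝ) (y : ℝ) : ∃ a, a < y ∧ ∀ x ∈ I, x < y → x ≤ a := by
  induction I using Finset.induction_on with
  | empty => exact ⟨y - 1, by linarith, by simp⟩
  | insert z I hz ih =>
    obtain ⟨a, ha, h⟩ := ih
    by_cases hzy : z < y
    · refine ⟨max a z, max_lt ha hzy, fun x hx hxy => ?_⟩
      rcases Finset.mem_insert.1 hx with rfl | hx
      · exact le_max_right _ _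
      · exact (h x hx hxy).trans (le_max_left _ _)
    · refine ⟨a, ha, fun x hx hxy => ?_⟩
      rcases Finset.mem_insert.1 hx with rfl | hx
      · exact absurd hxy hzy
      · exact h x hx hxy

theorem exists_right (I : Finset ℝ) (y : ℝ) : ∃ b, y < b ∧ ∀ x ∈ I, y < x → b ≤ x := by
  induction I using Finset.induction_on with
  | empty => exact ⟨y + 1, by linarith, by simp⟩
  | insert z I hz ih =>
    obtain ⟨a, ha, h⟩ := ih
    by_cases hzy : y < z
    · refine ⟨min a z, lt_min ha hzy, fun x hx hxy => ?_⟩
      rcases Finset.mem_insert.1 hx with rfl | hx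
      · exact min_le_right _ _
      · exact (min_le_left _ _).trans (h x hx hxy)
    · refine ⟨a, ha, fun x hx hxy => ?_⟩
      rcases Finset.mem_insert.1 hx with rfl | hx
      · exact absurd hxy hzy
      · exact h x hx hxy

/-- rational cuts are dense -/
theorem denseRange_rat : DenseRange fun q : ℚ => Lo (q : ℝ) := by
  intro L
  rw [mem_closure_iff_nhds]
  intro t ht
  obtain ⟨I, hI⟩ := exists_finset ht
  classical
  obtain ⟨m, hm1, hm2⟩ := Order.exists_between_finsets (I.filter fun x => L.1 x = true)
    (I.filter fun x => L.1 x = false) (fun x hx y hy =>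
      le_of_true_false L (Finset.mem_filter.1 hx).2 (Finset.mem_filter.1 hy).2)
  obtain ⟨m', hm1', hm2'⟩ := Order.exists_between_finsets {m}
    (I.filter fun x => L.1 x = false) (fun x hx y hy => by
      rw [Finset.mem_singleton.1 hx]; exact hm2 y hy)
  obtain ⟨q, hq1, hq2⟩ := exists_rat_btwn (hm1' m (Finset.mem_singleton_self m))
  refine ⟨Lo q, hI _ fun x hx => ?_, ⟨q, rfl⟩⟩
  show decide (x < (q : ℝ)) = L.1 x
  cases hLx : L.1 x
  · have := hm2' x (Finset.mem_filter.2 ⟨hx, hLx⟩)
    simpa using (hq2.trans this).le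
  · have := hm1 x (Finset.mem_filter.2 ⟨hx, hLx⟩)
    simpa using this.trans hq1

instance separable_DA : TopologicalSpace.SeparableSpace DA :=
  ⟨range fun q : ℚ => Lo (q : ℝ), countable_range _, denseRange_rat⟩

/-- **The double arrow space is hereditarily Lindelof.** -/
instance hereditarilyLindelof_DA : HereditarilyLindelofSpace DA := by
  refine ⟨fun t _ => isLindelof_of_countable_subcover fun {ι} U hU ht => ?_⟩
  classical
  let V : ι → Set ℝ := fun i =>
    ⋃ (a : ℝ) (b : ℝ) (_ : ∀ L : DA, L.1 a = true → L.1 b = false → L ∈ U i), Ioo a b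
  have hV : ∀ i, IsOpen (V i) := fun i =>
    isOpen_iUnion fun a => isOpen_iUnion fun b => isOpen_iUnion fun _ => isOpen_Ioo
  obtain ⟨T, hT, hTV⟩ := eq_open_union_countable V hV
  set G : Set ℝ := ⋃ i, V i with hG
  let S1 : Set ℝ := {y | y ∉ G ∧ ∃ a, a < y ∧ Ioo a y ⊆ G}
  let S2 : Set ℝ := {y | y ∉ G ∧ ∃ b, y < b ∧ Ioo y b ⊆ G}
  have hS1 : S1.Countable := by
    have h1 : ∀ y : ℝ, ∃ a, y ∈ S1 → a < y ∧ Ioo a y ⊆ G := by
      intro y
      by_cases hy : y ∈ S1
      · obtain ⟨a, ha⟩ := hy.2
        exact ⟨a, fun _ => ha⟩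
      · exact ⟨0, fun h => absurd h hy⟩
    choose a ha using h1
    refine Set.PairwiseDisjoint.countable_of_isOpen (s := fun y => Ioo (a y) y) (a := S1) ?_
      (fun y _ => isOpen_Ioo) (fun y hy => nonempty_Ioo.2 (ha y hy).1)
    have key : ∀ y ∈ S1, ∀ z ∈ S1, y < z → Disjoint (Ioo (a y) y) (Ioo (a z) z) := by
      intro y hy z hz hyz
      have h2 : y ≤ a z := by
        by_contra h
        exact hy.1 ((ha z hz).2 ⟨not_le.1 h, hyz⟩)
      rw [Set.disjoint_left]
      intro w hw hw'
      exact absurd (hw.2.trans_le h2) (not_lt.2 hw'.1.le)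
    intro y hy z hz hyz
    rcases lt_or_gt_of_ne hyz with h | h
    · exact key y hy z hz h
    · exact (key z hz y hy h).symm
  have hS2 : S2.Countable := by
    have h1 : ∀ y : ℝ, ∃ b, y ∈ S2 → y < b ∧ Ioo y b ⊆ G := by
      intro y
      by_cases hy : y ∈ S2
      · obtain ⟨a, ha⟩ := hy.2
        exact ⟨a, fun _ => ha⟩
      · exact ⟨0, fun h => absurd h hy⟩
    choose b hb using h1
    refine Set.PairwiseDisjoint.countable_of_isOpen (s := fun y => Ioo y (b y)) (a := S2) ?_
      (fun y _ => isOpen_Ioo) (fun y hy => nonempty_Ioo.2 (hb y hy).1)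
    have key : ∀ y ∈ S2, ∀ z ∈ S2, y < z → Disjoint (Ioo y (b y)) (Ioo z (b z)) := by
      intro y hy z hz hyz
      have h2 : b y ≤ z := by
        by_contra h
        exact hz.1 ((hb y hy).2 ⟨hyz, not_le.1 h⟩)
      rw [Set.disjoint_left]
      intro w hw hw'
      exact absurd (hw.2.trans_le h2) (not_lt.2 hw'.1.le)
    intro y hy z hz hyz
    rcases lt_or_gt_of_ne hyz with h | h
    · exact key y hy z hz h
    · exact (key z hz y hy h).symm
  -- the points of `t` which are not covered by the members with index in `T`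
  have hrest : (t \ ⋃ i ∈ T, U i).Countable := by
    have hsub : (t \ ⋃ i ∈ T, U i) ⊆ ({bo, tp} ∪ Lo '' S1) ∪ Hi '' S2 := by
      rintro L ⟨hLt, hLT⟩
      obtain ⟨i, hi⟩ := mem_iUnion.1 (ht hLt)
      have hnot : ∀ y, y ∈ G → L = Lo y ∨ L = Hi y → False := by
        intro y hy hL
        rw [← hTV] at hy
        simp only [mem_iUnion] at hy
        obtain ⟨j, hj, hy⟩ := hy
        simp only [V, mem_iUnion] at hy
        obtain ⟨a, b, hab, hya, hyb⟩ := hy
        apply hLT
        simp only [mem_iUnion]
        refine ⟨j, hj, hab L ?_ ?_⟩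
        · rcases hL with rfl | rfl
          · simp [Lo, hya]
          · simp [Hi, hya.le]
        · rcases hL with rfl | rfl
          · simp [Lo, hyb.le]
          · simp [Hi, hyb]
      rcases classify L with h | h | ⟨y, h | h⟩
      · left; left; left; exact h
      · left; left; right; exact h
      · left; right
        refine ⟨y, ⟨fun hy => hnot y hy (Or.inl h), ?_⟩, h.symm⟩
        obtain ⟨I, hI⟩ := exists_finset ((hU i).mem_nhds hi)
        obtain ⟨a, hay, ha⟩ := exists_left I y
        refine ⟨a, hay, fun z hz => ?_⟩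
        rw [hG]
        simp only [V, mem_iUnion]
        refine ⟨i, a, y, fun M hMa hMy => hI M fun x hx => ?_, hz⟩
        rw [h]
        show M.1 x = decide (x < y)
        rcases lt_or_ge x y with hxy | hxy
        · rw [true_of_le M (ha x hx hxy) hMa]; simp [hxy]
        · rw [false_of_le M hxy hMy]; simp [hxy]
      · right
        refine ⟨y, ⟨fun hy => hnot y hy (Or.inr h), ?_⟩, h.symm⟩
        obtain ⟨I, hI⟩ := exists_finset ((hU i).mem_nhds hi)
        obtain ⟨b, hyb, hb⟩ := exists_right I y
        refine ⟨b, hyb, fun z hz => ?_⟩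
        rw [hG]
        simp only [V, mem_iUnion]
        refine ⟨i, y, b, fun M hMy hMb => hI M fun x hx => ?_, hz⟩
        rw [h]
        show M.1 x = decide (x ≤ y)
        rcases le_or_gt x y with hxy | hxy
        · rw [true_of_le M hxy hMy]; simp [hxy]
        · rw [false_of_le M (hb x hx hxy) hMb]; simp [hxy]
    refine Set.Countable.mono hsub ?_
    exact (((Set.toFinite _).countable).union (hS1.image _)).union (hS2.image _)
  have hcR : Countable ↥(t \ ⋃ i ∈ T, U i) := hrest.to_subtype
  have hch : ∀ L : ↥(t \ ⋃ i ∈ T, U i), ∃ i, L.1 ∈ U i := fun L => mem_iUnion.1 (ht L.2.1)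
  choose f hf using hch
  refine ⟨T ∪ range f, hT.union (countable_range f), fun L hL => ?_⟩
  by_cases hLT : L ∈ ⋃ i ∈ T, U i
  · simp only [mem_iUnion] at hLT ⊢
    obtain ⟨i, hi, hLi⟩ := hLT
    exact ⟨i, Or.inl hi, hLi⟩
  · simp only [mem_iUnion]
    exact ⟨f ⟨L, hL, hLT⟩, Or.inr ⟨_, rfl⟩, hf ⟨L, hL, hLT⟩⟩

end Pool.Agent.Y644.Arr
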