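import Mathlib
import Pool.Agent.Y644.Arr.Core

/-!
The product of a convergent sequence with the double arrow space, and its quotient.
-/

set_option autoImplicit false

open Set Topology Filter

namespace Pool.Agent.Y644.Arr

open Pool.Agent.H151 Pool.Agent.H151.Ext

section General

variable {X Y : Type} [TopologicalSpace X] [TopologicalSpace Y]

theorem hereditarilyLindelof_of_surj [HereditarilyLindelofSpace X] {f : X → Y}
    (hf : Continuous f) (hs : Function.Surjective f) : HereditarilyLindelofSpace Y :=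
  ⟨fun t _ => by
    rw [← image_preimage_eq t hs]
    exact (HereditarilyLindelofSpace.isLindelof _).image hf⟩

theorem hereditarilyLindelof_prod [Countable X] [HereditarilyLindelofSpace Y] :
    HereditarilyLindelofSpace (X × Y) :=
  ⟨fun t _ => by
    have h : t = ⋃ a : X, (fun z => (a, z)) '' {z | (a, z) ∈ t} := by
      ext ⟨a, z⟩
      simp only [mem_iUnion, mem_image, mem_ofPred_eq, Prod.mk.injEq]
      constructor
      · intro hz
        exact ⟨a, z, hz, rfl, rfl⟩
      · rintro ⟨b, w, hw, rfl, rfl⟩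
        exact hw
    rw [h]
    exact isLindelof_iUnion fun a =>
      (HereditarilyLindelofSpace.isLindelof _).image (by fun_prop)⟩

/-- a regular hereditarily Lindelof space is perfectly normal -/
theorem perfectlyNormal [T3Space X] [HereditarilyLindelofSpace X] : T6Space X := by
  have hN : NormalSpace X := inferInstance
  have hP : PerfectlyNormalSpace X := by
    refine ⟨fun C hC => ?_⟩
    have hcov : ∀ x : X, ∃ V : Set X, IsOpen V ∧ (x ∈ Cᶜ → x ∈ V ∧ closure V ⊆ Cᶜ) := by
      intro x
      by_cases hx : x ∈ Cᶜ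
      · obtain ⟨V, hV, hVc, hVC⟩ := exists_mem_nhds_isClosed_subset (hC.isOpen_compl.mem_nhds hx)
        refine ⟨interior V, isOpen_interior, fun _ => ⟨mem_interior_iff_mem_nhds.2 hV, ?_⟩⟩
        exact (closure_minimal interior_subset hVc).trans hVC
      · exact ⟨∅, isOpen_empty, fun h => absurd h hx⟩
    choose V hV hV2 using hcov
    obtain ⟨T, hT, hTc⟩ := eq_open_union_countable (fun x : ↥(Cᶜ) => V x) (fun x => hV x)
    have hCe : C = ⋂ x ∈ T, (closure (V x))ᶜ := by
      apply Subset.antisymm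
      · intro z hz
        simp only [mem_iInter]
        intro x _ hzx
        exact (hV2 x x.2).2 hzx hz
      · intro z hz
        by_contra hzC
        have h1 : z ∈ ⋃ x ∈ T, V (x : X) := by
          rw [hTc]
          exact mem_iUnion.2 ⟨⟨z, hzC⟩, (hV2 z hzC).1⟩
        simp only [mem_iUnion] at h1
        obtain ⟨x, hxT, hzx⟩ := h1
        simp only [mem_iInter] at hz
        exact hz x hxT (subset_closure hzx)
    rw [hCe]
    exact IsGδ.biInter hT fun x _ => isClosed_closure.isOpen_compl.isGδ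
  exact { toT0Space := inferInstance, toPerfectlyNormalSpace := hP }

theorem firstCountable_of_closed [FirstCountableTopology X] {f : X → Y}
    (hf : Continuous f) (hc : IsClosedMap f) (hs : Function.Surjective f)
    (hfin : ∀ y, (f ⁻¹' {y}).Finite) : FirstCountableTopology Y := by
  refine ⟨fun y => ?_⟩
  have h1 : 𝓝 y = map f (𝓝ˢ (f ⁻¹' {y})) := by
    rw [← hc.comap_nhds_eq hf, map_comap_of_surjective hs]
  rw [h1]
  have h2 : (𝓝ˢ (f ⁻¹' {y})).IsCountablyGenerated := by
    induction f ⁻¹' {y}, hfin y using Set.Finite.induction_on with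
    | empty => rw [nhdsSet_empty]; infer_instance
    | insert _ _ ih =>
      rw [nhdsSet_insert]
      infer_instance
  infer_instance

end General

/-- at most two points have the same image under `f` -/
def TwoToOne {X Y : Type} (f : X → Y) : Prop :=
  ∀ a b c : X, f a = f b → f b = f c → a = b ∨ b = c ∨ a = c

theorem TwoToOne.finite {X Y : Type} {f : X → Y} (h : TwoToOne f) (y : Y) :
    (f ⁻¹' {y}).Finite := by
  by_cases h2 : ∃ a ∈ f ⁻¹' {y}, ∃ b ∈ f ⁻¹' {y}, a ≠ b
  · obtain ⟨a, ha, b, hb, hab⟩ := h2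
    refine (Set.toFinite {a, b}).subset fun c hc => ?_
    have ha' : f a = y := ha
    have hb' : f b = y := hb
    have hc' : f c = y := hc
    rcases h a b c (ha'.trans hb'.symm) (hb'.trans hc'.symm) with h | h | h
    · exact absurd h hab
    · right; exact h.symm
    · left; exact h.symm
  · push Not at h2
    refine Set.Subsingleton.finite fun a ha b hb => h2 a ha b hb

instance countable_onePoint : Countable (OnePoint ℕ) := inferInstanceAs (Countable (Option ℕ))

instance firstCountable_onePoint : FirstCountableTopology (OnePoint ℕ) := by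
  refine ⟨fun m => ?_⟩
  induction m using OnePoint.rec with
  | infty =>
    rw [OnePoint.nhds_infty_eq, coclosedCompact_eq_cocompact, cocompact_eq_cofinite,
      Nat.cofinite_eq_atTop]
    infer_instance
  | coe n =>
    rw [OnePoint.nhds_coe_eq, nhds_discrete]
    infer_instance

instance totallyDisconnected_onePoint : TotallyDisconnectedSpace (OnePoint ℕ) := by
  refine ⟨isTotallyDisconnected_of_image (f := fun m : OnePoint ℕ => fun k : ℕ => eqb m k)
    (continuous_pi fun k => continuous_eqb k).continuousOn ?_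
    (isTotallyDisconnected_of_totallyDisconnectedSpace _)⟩
  intro m m' h
  by_contra hne
  have key : ∀ m m' : OnePoint ℕ, (fun k : ℕ => eqb m k) = (fun k : ℕ => eqb m' k) →
      m ≠ OnePoint.infty → m = m' := by
    intro m m' h hm
    obtain ⟨k, rfl⟩ := OnePoint.ne_infty_iff_exists.1 hm
    have h1 := congrFun h k
    simp only [eqb_self] at h1
    unfold eqb at h1
    have h2 : m' = (k : OnePoint ℕ) := by simpa using h1
    exact h2.symm
  by_cases h1 : m = OnePoint.infty
  · by_cases h2 : m' = OnePoint.infty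
    · exact hne (h1.trans h2.symm)
    · exact hne (key m' m h.symm h2).symm
  · exact hne (key m m' h h1)

theorem differ_unique (e : ℝ → Bool) (he : ∀ x y : ℝ, x < y → ∃ z, x < z ∧ z < y ∧ e z = false)
    {L M : DA} (h : ∀ x, (L.1 x && !(e x)) = (M.1 x && !(e x))) {x y : ℝ}
    (hx : L.1 x ≠ M.1 x) (hy : L.1 y ≠ M.1 y) : x = y := by
  have key : ∀ (L M : DA), L ≤ M → (∀ x, (L.1 x && !(e x)) = (M.1 x && !(e x))) →
      ∀ x y : ℝ, L.1 x ≠ M.1 x → L.1 y ≠ M.1 y → ¬ x < y := by
    intro L M hLM h x y hx hy hxy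
    have h1 : ∀ w, L.1 w ≠ M.1 w → L.1 w = false ∧ M.1 w = true := by
      intro w hw
      have h2 : L.1 w ≤ M.1 w := hLM w
      revert hw h2
      cases L.1 w <;> cases M.1 w <;> simp
    obtain ⟨z, hxz, hzy, hez⟩ := he x y hxy
    have h3 := h z
    rw [hez, false_of_le L hxz.le (h1 x hx).1, true_of_le M hzy.le (h1 y hy).2] at h3
    simp at h3
  have key2 : ∀ x y : ℝ, L.1 x ≠ M.1 x → L.1 y ≠ M.1 y → ¬ x < y := by
    rcases DA.le_total' L M with hLM | hML
    · exact key L M hLM h
    · intro x y hx hy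
      exact key M L hML (fun x => (h x).symm) x y hx.symm hy.symm
  exact le_antisymm (not_lt.1 (key2 y x hy hx)) (not_lt.1 (key2 x y hx hy))

theorem qm_twoToOne (ν : ℝ → ℕ)
    (hν : ∀ (n : ℕ) (a b : ℝ), a < b → ¬ IsMeagre (ν ⁻¹' {n} ∩ Ioo a b)) :
    TwoToOne (qm ν) := by
  rintro ⟨n, L⟩ ⟨n2, M⟩ ⟨n3, N⟩ h1 h2
  have h12 : n = n2 := congrArg Prod.fst h1
  have h23 : n2 = n3 := congrArg Prod.fst h2
  subst h12
  subst h23
  have g1 : ∀ x, (L.1 x && !(eqb n (ν x))) = (M.1 x && !(eqb n (ν x))) := fun x =>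
    congrFun (congrArg Prod.snd h1) x
  have g2 : ∀ x, (M.1 x && !(eqb n (ν x))) = (N.1 x && !(eqb n (ν x))) := fun x =>
    congrFun (congrArg Prod.snd h2) x
  have g3 : ∀ x, (L.1 x && !(eqb n (ν x))) = (N.1 x && !(eqb n (ν x))) := fun x =>
    (g1 x).trans (g2 x)
  have he : ∀ x y : ℝ, x < y → ∃ z, x < z ∧ z < y ∧ eqb n (ν z) = false := by
    intro x y hxy
    -- a level different from `n`
    obtain ⟨k, hk⟩ : ∃ k : ℕ, (k : OnePoint ℕ) ≠ n := by
      by_cases h0 : ((0 : ℕ) : OnePoint ℕ) = n
      · refine ⟨1, fun h1 => ?_⟩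
        rw [← h0] at h1
        exact absurd (OnePoint.coe_injective h1) (by norm_num)
      · exact ⟨0, h0⟩
    have hne : (ν ⁻¹' {k} ∩ Ioo x y).Nonempty := by
      rw [nonempty_iff_ne_empty]
      intro h0
      apply hν k x y hxy
      rw [h0]
      exact IsMeagre.empty
    obtain ⟨z, hz1, hz2⟩ := hne
    refine ⟨z, hz2.1, hz2.2, ?_⟩
    have hz3 : ν z = k := hz1
    rw [hz3]
    unfold eqb
    simp only [decide_eq_false_iff_not]
    exact fun h => hk h.symm
  by_contra hcon
  push Not at hcon
  obtain ⟨hLM, hMN, hLN⟩ := hcon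
  have hd : ∀ {A B : DA}, (n, A) ≠ (n, B) → ∃ x, A.1 x ≠ B.1 x := by
    intro A B hAB
    by_contra h
    push Not at h
    exact hAB (by rw [Subtype.ext (funext h)])
  obtain ⟨x1, hx1⟩ := hd hLM
  obtain ⟨x2, hx2⟩ := hd hMN
  obtain ⟨x3, hx3⟩ := hd hLN
  by_cases hc : M.1 x1 = N.1 x1
  · -- then `L` and `N` differ at `x1`, and `M`, `N` differ at `x2`
    have e1 : L.1 x1 ≠ N.1 x1 := fun h => hx1 (h.trans hc.symm)
    by_cases hc2 : L.1 x2 = M.1 x2
    · have e2 : L.1 x2 ≠ N.1 x2 := fun h => hx2 (hc2.symm.trans h)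
      have := differ_unique _ he g3 e1 e2
      rw [← this] at hx2
      exact hx2 hc
    · have := differ_unique _ he g1 hx1 hc2
      rw [← this] at hx2
      exact hx2 hc
  · have e1 : L.1 x1 = N.1 x1 := by
      revert hx1 hc
      cases L.1 x1 <;> cases M.1 x1 <;> cases N.1 x1 <;> simp
    by_cases hc3 : L.1 x3 = M.1 x3
    · have e2 : M.1 x3 ≠ N.1 x3 := fun h => hx3 (hc3.trans h)
      have := differ_unique _ he g2 hc e2
      rw [← this] at hx3
      exact hx3 e1
    · have := differ_unique _ he g1 hx1 hc3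
      rw [← this] at hx3
      exact hx3 e1

end Pool.Agent.Y644.Arr
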